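import Mathlib
import Pool.Agent.Helper203.UAT
import Pool.Agent.Helper203.Carl3
import Pool.Agent.Helper203.HStmt

set_option autoImplicit false

open Complex Metric Set Filter MeasureTheory ContinuousLinearMap
open scoped Real Topology ComplexConjugate NNReal ENNReal

namespace Pool.Agent.H502U

open Pool.Agent.Helper203.Hardy

/-- an operator is bounded by twice its numerical radius -/
theorem norm_le_of_form {T : H2 →L[ℂ] H2} {c : ℝ} (hc : 0 ≤ c)
    (h : ∀ f : H2, ‖inner ℂ (T f) f‖ ≤ c * ‖f‖ ^ 2) : ‖T‖ ≤ 2 * c := by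
  apply ContinuousLinearMap.opNorm_le_bound _ (by positivity)
  intro y
  by_cases hy : T y = 0
  · rw [hy, norm_zero]; positivity
  have hy1 : 0 < ‖T y‖ := norm_pos_iff.2 hy
  have hy0 : 0 < ‖y‖ := by
    apply norm_pos_iff.2
    rintro rfl
    exact hy (map_zero T)
  have key : ∀ x : H2, ‖inner ℂ (T y) x‖ ≤ c * (‖x‖ ^ 2 + ‖y‖ ^ 2) := by
    intro x
    have e := inner_map_polarization (T : H2 →ₗ[ℂ] H2) x y
    simp only [ContinuousLinearMap.coe_coe] at e
    rw [e]
    have h1 := h (x + y)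
    have h2 := h (x - y)
    have h3 := h (x + Complex.I • y)
    have h4 := h (x - Complex.I • y)
    have p1 := parallelogram_law_with_norm ℂ x y
    have p2 := parallelogram_law_with_norm ℂ x (Complex.I • y)
    rw [norm_smul, Complex.norm_I, one_mul] at p2
    have n1 : ‖(inner ℂ (T (x + y)) (x + y) - inner ℂ (T (x - y)) (x - y) +
          Complex.I * inner ℂ (T (x + Complex.I • y)) (x + Complex.I • y) -
          Complex.I * inner ℂ (T (x - Complex.I • y)) (x - Complex.I • y) : ℂ)‖ ≤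
        ‖inner ℂ (T (x + y)) (x + y)‖ + ‖inner ℂ (T (x - y)) (x - y)‖ +
          ‖inner ℂ (T (x + Complex.I • y)) (x + Complex.I • y)‖ +
          ‖inner ℂ (T (x - Complex.I • y)) (x - Complex.I • y)‖ := by
      refine (norm_sub_le _ _).trans ?_
      refine add_le_add ((norm_add_le _ _).trans (add_le_add (norm_sub_le _ _) ?_)) ?_
      · rw [norm_mul, Complex.norm_I, one_mul]
      · rw [norm_mul, Complex.norm_I, one_mul]
    rw [norm_div]
    have e4 : ‖(4 : ℂ)‖ = 4 := by simp
    rw [e4, div_le_iff₀ (by norm_num)]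
    refine n1.trans ?_
    nlinarith
  set x : H2 := ((‖y‖ / ‖T y‖ : ℝ) : ℂ) • T y with hx
  have hxn : ‖x‖ = ‖y‖ := by
    rw [hx, norm_smul, Complex.norm_real, Real.norm_of_nonneg (by positivity)]
    field_simp
  have h1 := key x
  rw [hxn, hx, inner_smul_right, inner_self_eq_norm_sq_to_K, norm_mul, Complex.norm_real,
    Real.norm_of_nonneg (by positivity)] at h1
  have h2 : ‖((‖T y‖ : ℂ)) ^ 2‖ = ‖T y‖ ^ 2 := by
    rw [norm_pow, Complex.norm_real, norm_norm]
  have h3 : ‖y‖ / ‖T y‖ * ‖T y‖ ^ 2 ≤ c * (‖y‖ ^ 2 + ‖y‖ ^ 2) := by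
    refine le_trans (le_of_eq ?_) h1
    congr 1
    exact h2.symm
  have h4 : ‖y‖ / ‖T y‖ * ‖T y‖ ^ 2 = ‖y‖ * ‖T y‖ := by field_simp
  rw [h4] at h3
  have h5 : ‖y‖ * ‖T y‖ ≤ ‖y‖ * (2 * c * ‖y‖) := by nlinarith
  exact le_of_mul_le_mul_left h5 hy0

/-- functions with absolutely summable coefficients are dense -/
theorem wiener_ind {P : H2 → Prop} (hc : IsClosed {f | P f})
    (h : ∀ f : H2, (Summable fun n => ‖f n‖) → P f) (f : H2) : P f := by
  have h1 : HasSum (fun i => lp.single 2 i (f i)) f := lp.hasSum_single (by norm_num) f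
  have h2 : ∀ s : Finset ℕ, P (∑ i ∈ s, lp.single 2 i (f i)) := by
    intro s
    apply h
    apply summable_of_ne_finset_zero (s := s)
    intro n hn
    rw [norm_eq_zero, lp.coeFn_sum, Finset.sum_apply]
    apply Finset.sum_eq_zero
    intro i hi
    have hne : n ≠ i := fun e => hn (e ▸ hi)
    rw [lp.single_apply]
    exact Pi.single_eq_of_ne hne _
  exact hc.mem_of_tendsto h1 (Eventually.of_forall h2)

end Pool.Agent.H502U
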