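import Mathlib
import Pool.Agent.H502U.Form

set_option autoImplicit false

open Complex Metric Set Filter MeasureTheory ContinuousLinearMap
open scoped Real Topology ComplexConjugate NNReal ENNReal

namespace Pool.Agent.H502U

open Pool.Agent.Helper203.Hardy

variable {φ : ℂ → ℂ}

instance pull_fin : IsFiniteMeasure (pull φ) := by
  unfold pull; infer_instance

theorem pull_univ_le (hφ : DifferentiableOn ℂ φ (ball 0 1))
    (hm : MapsTo φ (ball (0 : ℂ) 1) (ball 0 1)) : pull φ univ ≤ 1 := by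
  unfold pull
  rw [Measure.restrict_apply_univ, Measure.map_apply_of_aemeasurable (bv_aemeas hφ hm)
    measurableSet_ball]
  exact prob_le_one

theorem pull_ae (φ : ℂ → ℂ) : ∀ᵐ z ∂(pull φ), ‖z‖ < 1 := by
  unfold pull
  filter_upwards [ae_restrict_mem measurableSet_ball] with z hz
  exact mem_ball_zero_iff.1 hz

/-- integrals over the pull-back measure -/
theorem lint_pull {G : ℂ → ℝ≥0∞} (hG : Measurable G) (hφ : DifferentiableOn ℂ φ (ball 0 1))
    (hm : MapsTo φ (ball (0 : ℂ) 1) (ball 0 1)) :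
    ∫⁻ z, G z ∂(pull φ) = ∫⁻ θ, (if ‖bv φ θ‖ < 1 then G (bv φ θ) else 0) ∂mT := by
  unfold pull
  rw [← lintegral_indicator measurableSet_ball,
    lintegral_map' (hG.indicator measurableSet_ball).aemeasurable (bv_aemeas hφ hm)]
  apply lintegral_congr
  intro θ
  by_cases h : ‖bv φ θ‖ < 1
  · rw [if_pos h, indicator_of_mem (mem_ball_zero_iff.2 h)]
  · rw [if_neg h, indicator_of_notMem]
    rwa [mem_ball_zero_iff]

theorem qi_nonneg (f : H2) (n : ℕ) : 0 ≤ qi φ f n := by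
  unfold qi
  apply integral_nonneg
  intro θ
  dsimp only
  split_ifs <;> positivity

/-- the inner part of the quadratic form as an integral over the pull-back measure -/
theorem qi_pull (hφ : DifferentiableOn ℂ φ (ball 0 1))
    (hm : MapsTo φ (ball (0 : ℂ) 1) (ball 0 1)) (f : H2) (hs : Summable fun n => ‖f n‖) (n : ℕ) :
    ENNReal.ofReal (qi φ f n) = ∫⁻ z, ENNReal.ofReal (‖z‖ ^ (2 * n) * ‖evm f z‖ ^ 2) ∂(pull φ) := by
  have hmm := evm_meas f hs
  have hG : Measurable fun z : ℂ => ENNReal.ofReal (‖z‖ ^ (2 * n) * ‖evm f z‖ ^ 2) := by fun_prop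
  rw [lint_pull hG hφ hm]
  have e1 : qi φ f n = ∫ θ, (if ‖bv φ θ‖ < 1 then ‖bv φ θ‖ ^ (2 * n) * ‖evm f (bv φ θ)‖ ^ 2
      else 0) ∂mT := by
    apply integral_congr_ae
    filter_upwards [bv_le hφ hm] with θ hθ
    rw [evm_eq f hθ]
  have i1 : Integrable (fun θ => if ‖bv φ θ‖ < 1 then ‖bv φ θ‖ ^ (2 * n) * ‖evm f (bv φ θ)‖ ^ 2
      else 0) mT := by
    apply int_bv (F := fun z => if ‖z‖ < 1 then ‖z‖ ^ (2 * n) * ‖evm f z‖ ^ 2 else 0) _ hφ hm
      (M := (∑' n, ‖f n‖) ^ 2)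
    · intro z hz
      have := pow_evm_le f hs n hz
      split_ifs
      · rw [Real.norm_of_nonneg (by positivity)]; exact this
      · rw [norm_zero]; positivity
    · apply Measurable.ite (measurableSet_lt measurable_norm measurable_const)
      · fun_prop
      · exact measurable_const
  rw [e1, ofReal_integral_eq_lintegral_ofReal i1]
  · apply lintegral_congr
    intro θ
    split_ifs <;> simp
  · apply Eventually.of_forall
    intro θ
    dsimp only
    split_ifs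
    · positivity
    · exact le_refl _

theorem qb_nonneg (f : H2) : 0 ≤ qb φ f := by
  unfold qb
  apply integral_nonneg
  intro θ
  dsimp only
  split_ifs
  · exact le_refl _
  · positivity

/-- the form of the compression -/
theorem form_eq (hφ : DifferentiableOn ℂ φ (ball 0 1))
    (hm : MapsTo φ (ball (0 : ℂ) 1) (ball 0 1)) {C : H2 →L[ℂ] H2}
    (hC : ∀ f : H2, ∀ z ∈ ball (0 : ℂ) 1, ev (C f) z = ev f (φ z))
    (f : H2) (hs : Summable fun n => ‖f n‖) (n : ℕ) :
    inner ℂ (compress (adjoint C ∘L C) n f) f = ((qi φ f n + qb φ f : ℝ) : ℂ) := by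
  rw [compress_form, comp_norm_sq hφ hm hC f hs n, ← q_split hφ hm f hs n]
  rfl

theorem qi_le_norm (hφ : DifferentiableOn ℂ φ (ball 0 1))
    (hm : MapsTo φ (ball (0 : ℂ) 1) (ball 0 1)) {C : H2 →L[ℂ] H2}
    (hC : ∀ f : H2, ∀ z ∈ ball (0 : ℂ) 1, ev (C f) z = ev f (φ z))
    (f : H2) (hs : Summable fun n => ‖f n‖) : qi φ f 0 ≤ ‖C‖ ^ 2 * ‖f‖ ^ 2 := by
  have h1 := comp_norm_sq hφ hm hC f hs 0
  have h2 := q_split hφ hm f hs 0
  have h3 : ‖C ((Mz ^ 0) f)‖ ^ 2 = qf φ f 0 := h1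
  rw [h2] at h3
  have h4 := qb_nonneg (φ := φ) f
  have h5 : ‖C ((Mz ^ 0) f)‖ ≤ ‖C‖ * ‖f‖ := by
    refine (C.le_opNorm _).trans ?_
    rw [Mz_pow_norm]
  have h6 : ‖C ((Mz ^ 0) f)‖ ^ 2 ≤ (‖C‖ * ‖f‖) ^ 2 := pow_le_pow_left₀ (norm_nonneg _) h5 2
  rw [mul_pow] at h6
  linarith

/-- if the compressions converge in norm to `L`, then the inner part is controlled by the
distance to the limit -/
theorem qi_le_of_lim (hφ : DifferentiableOn ℂ φ (ball 0 1))
    (hm : MapsTo φ (ball (0 : ℂ) 1) (ball 0 1)) {C L : H2 →L[ℂ] H2}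
    (hC : ∀ f : H2, ∀ z ∈ ball (0 : ℂ) 1, ev (C f) z = ev f (φ z))
    (hL : Tendsto (fun n => compress (adjoint C ∘L C) n) atTop (𝓝 L))
    (f : H2) (hs : Summable fun n => ‖f n‖) (n : ℕ) :
    qi φ f n ≤ ‖compress (adjoint C ∘L C) n - L‖ * ‖f‖ ^ 2 := by
  have h1 : Tendsto (fun n => inner ℂ (compress (adjoint C ∘L C) n f) f) atTop
      (𝓝 (inner ℂ (L f) f)) := by
    have h2 : Tendsto (fun n => compress (adjoint C ∘L C) n f) atTop (𝓝 (L f)) :=
      ((ContinuousLinearMap.apply ℂ H2 f).continuous.tendsto L).comp hL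
    exact h2.inner tendsto_const_nhds
  have h3 : Tendsto (fun n => ((qi φ f n + qb φ f : ℝ) : ℂ)) atTop (𝓝 ((0 + qb φ f : ℝ) : ℂ)) :=
    (Complex.continuous_ofReal.tendsto _).comp ((qi_tendsto hφ hm f hs).add_const _)
  have h4 : inner ℂ (L f) f = ((0 + qb φ f : ℝ) : ℂ) := by
    refine tendsto_nhds_unique h1 ?_
    refine h3.congr fun n => ?_
    rw [form_eq hφ hm hC f hs n]
  have h5 : inner ℂ ((compress (adjoint C ∘L C) n - L) f) f = ((qi φ f n : ℝ) : ℂ) := by
    rw [_root_.sub_apply, inner_sub_left, form_eq hφ hm hC f hs n, h4]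
    push_cast
    ring
  have h6 : ‖inner ℂ ((compress (adjoint C ∘L C) n - L) f) f‖ ≤
      ‖compress (adjoint C ∘L C) n - L‖ * ‖f‖ ^ 2 := by
    refine (norm_inner_le_norm _ _).trans ?_
    have := (compress (adjoint C ∘L C) n - L).le_opNorm f
    nlinarith [norm_nonneg f]
  rw [h5, Complex.norm_real, Real.norm_of_nonneg (qi_nonneg f n)] at h6
  exact h6

end Pool.Agent.H502U
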