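import Mathlib
import Pool.Agent.H502U.Pull

set_option autoImplicit false

open Complex Metric Set Filter MeasureTheory ContinuousLinearMap
open scoped Real Topology ComplexConjugate NNReal ENNReal

namespace Pool.Agent.H502U

open Pool.Agent.Helper203.Hardy

variable {φ : ℂ → ℂ}

/-- the kernel test: `∫ (1 - |a|²)/|1 - conj a z|² dμ(z) → 0` as `|a| → 1` -/
def KT (μ : Measure ℂ) : Prop :=
  ∀ ε > 0, ∃ δ > 0, ∀ a : ℂ, 1 - δ < ‖a‖ → ‖a‖ < 1 →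
    ∫⁻ z, ENNReal.ofReal (kr a z) ∂μ ≤ ENNReal.ofReal ε

theorem kr_split {a z : ℂ} (ha : ‖a‖ < 1) (hz : ‖z‖ ≤ 1) (n : ℕ) :
    kr a z ≤ ‖z‖ ^ (2 * n) * kr a z + n * √(1 - ‖a‖ ^ 2) * (1 + kr a z) := by
  have hu : 0 < ‖1 - conj a * z‖ := one_sub_pos ha hz
  have h1 : 1 - ‖z‖ ≤ ‖1 - conj a * z‖ := by
    have h2 := norm_sub_norm_le (1 : ℂ) (conj a * z)
    rw [norm_one, norm_mul, RCLike.norm_conj] at h2
    nlinarith [norm_nonneg z, norm_nonneg a]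
  have h0 : 0 ≤ 1 - ‖a‖ ^ 2 := by nlinarith [norm_nonneg a]
  set s := √(1 - ‖a‖ ^ 2) with hs
  set u := ‖1 - conj a * z‖ with hu'
  have hss : s ^ 2 = 1 - ‖a‖ ^ 2 := Real.sq_sqrt h0
  have hs0 : 0 ≤ s := Real.sqrt_nonneg _
  set k := s / u with hk
  have hkr : kr a z = k ^ 2 := by rw [kr, hk, div_pow, hss]
  have huk : u * k = s := by rw [hk]; field_simp
  have hk0 : 0 ≤ k := by positivity
  have h3 : 1 - ‖z‖ ^ (2 * n) ≤ 2 * n * (1 - ‖z‖) := by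
    have h4 := one_add_mul_le_pow (a := ‖z‖ - 1) (by linarith [norm_nonneg z]) (2 * n)
    have h5 : (1 : ℝ) + (‖z‖ - 1) = ‖z‖ := by ring
    rw [h5] at h4
    push_cast at h4
    linarith
  have hn : (0 : ℝ) ≤ n := Nat.cast_nonneg n
  have h6 : (1 - ‖z‖ ^ (2 * n)) * k ^ 2 ≤ 2 * n * s * k := by
    calc (1 - ‖z‖ ^ (2 * n)) * k ^ 2 ≤ (2 * n * u) * k ^ 2 := by
          apply mul_le_mul_of_nonneg_right _ (by positivity)
          calc 1 - ‖z‖ ^ (2 * n) ≤ 2 * n * (1 - ‖z‖) := h3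
            _ ≤ 2 * n * u := by gcongr
      _ = 2 * n * (u * k) * k := by ring
      _ = 2 * n * s * k := by rw [huk]
  have h7 : 2 * n * s * k ≤ n * s * (1 + k ^ 2) := by
    have h8 : 2 * k ≤ 1 + k ^ 2 := by nlinarith [sq_nonneg (k - 1)]
    have h9 : 0 ≤ n * s := by positivity
    nlinarith
  rw [hkr]
  linarith

theorem kint (hφ : DifferentiableOn ℂ φ (ball 0 1))
    (hm : MapsTo φ (ball (0 : ℂ) 1) (ball 0 1)) {a : ℂ} (ha : ‖a‖ < 1) (n : ℕ) :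
    ∫⁻ z, ENNReal.ofReal (‖z‖ ^ (2 * n) * kr a z) ∂(pull φ) =
      ENNReal.ofReal ((1 - ‖a‖ ^ 2) * qi φ (ker ha) n) := by
  have h0 : 0 ≤ 1 - ‖a‖ ^ 2 := by nlinarith [norm_nonneg a]
  have hmm := evm_meas (ker ha) (ker_sum ha)
  have hG : Measurable fun z : ℂ => ENNReal.ofReal (‖z‖ ^ (2 * n) * ‖evm (ker ha) z‖ ^ 2) := by
    fun_prop
  rw [ENNReal.ofReal_mul h0, qi_pull hφ hm (ker ha) (ker_sum ha) n, ← lintegral_const_mul _ hG]
  apply lintegral_congr_ae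
  filter_upwards [pull_ae φ] with z hz
  rw [← ENNReal.ofReal_mul h0, evm_eq _ hz.le, ← ker_ev_sq ha hz.le]
  congr 1
  ring

theorem kint_le_norm (hφ : DifferentiableOn ℂ φ (ball 0 1))
    (hm : MapsTo φ (ball (0 : ℂ) 1) (ball 0 1)) {C : H2 →L[ℂ] H2}
    (hC : ∀ f : H2, ∀ z ∈ ball (0 : ℂ) 1, ev (C f) z = ev f (φ z)) {a : ℂ} (ha : ‖a‖ < 1) :
    ∫⁻ z, ENNReal.ofReal (kr a z) ∂(pull φ) ≤ ENNReal.ofReal (‖C‖ ^ 2) := by
  have h0 : 0 < 1 - ‖a‖ ^ 2 := by nlinarith [norm_nonneg a]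
  have h1 := kint hφ hm ha 0
  simp only [mul_zero, pow_zero, one_mul] at h1
  rw [h1]
  apply ENNReal.ofReal_le_ofReal
  have h2 := qi_le_norm hφ hm hC (ker ha) (ker_sum ha)
  rw [ker_norm ha] at h2
  calc (1 - ‖a‖ ^ 2) * qi φ (ker ha) 0 ≤ (1 - ‖a‖ ^ 2) * (‖C‖ ^ 2 * (1 - ‖a‖ ^ 2)⁻¹) := by gcongr
    _ = ‖C‖ ^ 2 := by field_simp

/-- UAT implies the kernel test -/
theorem kt_of_lim (hφ : DifferentiableOn ℂ φ (ball 0 1))
    (hm : MapsTo φ (ball (0 : ℂ) 1) (ball 0 1)) {C L : H2 →L[ℂ] H2}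
    (hC : ∀ f : H2, ∀ z ∈ ball (0 : ℂ) 1, ev (C f) z = ev f (φ z))
    (hL : Tendsto (fun n => compress (adjoint C ∘L C) n) atTop (𝓝 L)) : KT (pull φ) := by
  intro ε hε
  obtain ⟨n, hn⟩ : ∃ n, ‖compress (adjoint C ∘L C) n - L‖ ≤ ε / 2 := by
    have h1 : Tendsto (fun n => ‖compress (adjoint C ∘L C) n - L‖) atTop (𝓝 0) :=
      (tendsto_iff_norm_sub_tendsto_zero).1 hL
    obtain ⟨n, hn⟩ := (h1.eventually (ge_mem_nhds (show (0 : ℝ) < ε / 2 by positivity))).exists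
    exact ⟨n, hn⟩
  set B : ℝ := ‖C‖ ^ 2 with hB
  have hB0 : 0 ≤ B := by positivity
  set t : ℝ := ε / (2 * (n + 1) * (1 + B)) with ht
  have ht0 : 0 < t := by positivity
  refine ⟨t ^ 2 / 2, by positivity, ?_⟩
  intro a ha1 ha
  have h0 : 0 < 1 - ‖a‖ ^ 2 := by nlinarith [norm_nonneg a]
  have hst : √(1 - ‖a‖ ^ 2) ≤ t := by
    apply Real.sqrt_le_iff.2
    refine ⟨ht0.le, ?_⟩
    nlinarith [norm_nonneg a]
  have hkm : Measurable fun z : ℂ => ENNReal.ofReal (kr a z) :=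
    ENNReal.measurable_ofReal.comp (kr_cont a)
  have hkm2 : Measurable fun z : ℂ => ENNReal.ofReal (‖z‖ ^ (2 * n) * kr a z) := by
    apply ENNReal.measurable_ofReal.comp
    exact (measurable_norm.pow_const _).mul (kr_cont a)
  have hkm3 : Measurable fun z : ℂ => (1 : ℝ≥0∞) + ENNReal.ofReal (kr a z) :=
    measurable_const.add hkm
  have c0 : 0 ≤ n * √(1 - ‖a‖ ^ 2) := by positivity
  have h2 : ∫⁻ z, ENNReal.ofReal (kr a z) ∂(pull φ) ≤
      ∫⁻ z, (ENNReal.ofReal (‖z‖ ^ (2 * n) * kr a z) + ENNReal.ofReal (n * √(1 - ‖a‖ ^ 2)) *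
        (1 + ENNReal.ofReal (kr a z))) ∂(pull φ) := by
    apply lintegral_mono_ae
    filter_upwards [pull_ae φ] with z hz
    have hk0 := kr_nonneg ha.le z
    have h3 := kr_split ha hz.le n
    refine (ENNReal.ofReal_le_ofReal h3).trans ?_
    rw [ENNReal.ofReal_add (by positivity) (by positivity), ENNReal.ofReal_mul c0,
      ENNReal.ofReal_add zero_le_one hk0, ENNReal.ofReal_one]
  refine h2.trans ?_
  rw [lintegral_add_left hkm2, lintegral_const_mul _ hkm3,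
    lintegral_add_left measurable_const, lintegral_const, one_mul, kint hφ hm ha n]
  have h4 : (1 - ‖a‖ ^ 2) * qi φ (ker ha) n ≤ ε / 2 := by
    have h5 := qi_le_of_lim hφ hm hC hL (ker ha) (ker_sum ha) n
    rw [ker_norm ha] at h5
    calc (1 - ‖a‖ ^ 2) * qi φ (ker ha) n ≤
        (1 - ‖a‖ ^ 2) * (‖compress (adjoint C ∘L C) n - L‖ * (1 - ‖a‖ ^ 2)⁻¹) := by gcongr
      _ = ‖compress (adjoint C ∘L C) n - L‖ := by field_simp
      _ ≤ ε / 2 := hn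
  have h6 : ENNReal.ofReal (n * √(1 - ‖a‖ ^ 2)) *
      (pull φ univ + ∫⁻ z, ENNReal.ofReal (kr a z) ∂(pull φ)) ≤ ENNReal.ofReal (ε / 2) := by
    calc _ ≤ ENNReal.ofReal (n * √(1 - ‖a‖ ^ 2)) * (1 + ENNReal.ofReal B) := by
          gcongr
          · exact pull_univ_le hφ hm
          · exact kint_le_norm hφ hm hC ha
      _ = ENNReal.ofReal (n * √(1 - ‖a‖ ^ 2) * (1 + B)) := by
          rw [ENNReal.ofReal_mul c0, ENNReal.ofReal_add zero_le_one hB0, ENNReal.ofReal_one]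
      _ ≤ _ := by
          apply ENNReal.ofReal_le_ofReal
          calc n * √(1 - ‖a‖ ^ 2) * (1 + B) ≤ (n + 1) * t * (1 + B) := by
                gcongr
                linarith
            _ = ε / 2 := by rw [ht]; field_simp
  calc _ ≤ ENNReal.ofReal (ε / 2) + ENNReal.ofReal (ε / 2) :=
        add_le_add (ENNReal.ofReal_le_ofReal h4) h6
    _ = ENNReal.ofReal ε := by
        rw [← ENNReal.ofReal_add (by positivity) (by positivity)]
        congr 1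
        ring

end Pool.Agent.H502U
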