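import Mathlib
import Pool.Agent.H502U.Kt

set_option autoImplicit false

open Complex Metric Set Filter MeasureTheory ContinuousLinearMap
open scoped Real Topology ComplexConjugate NNReal ENNReal

namespace Pool.Agent.H502U

open Pool.Agent.Helper203.Hardy

variable {μ : Measure ℂ}

theorem vc_of_kt (hμ : ∀ᵐ z ∂μ, ‖z‖ < 1) (hk : KT μ) : VanishingCarleson μ := by
  intro ε hε
  obtain ⟨δ, hδ, hδ'⟩ := hk (ε / 4) (by positivity)
  refine ⟨min δ 1, lt_min hδ one_pos, ?_⟩
  intro ζ hζ h h0 hh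
  have h1 : h < δ := lt_of_lt_of_le hh (min_le_left _ _)
  have h2 : h < 1 := lt_of_lt_of_le hh (min_le_right _ _)
  set a : ℂ := ((1 - h : ℝ) : ℂ) * ζ with ha
  have han : ‖a‖ = 1 - h := by
    rw [ha, norm_mul, Complex.norm_real, Real.norm_of_nonneg (by linarith), hζ, mul_one]
  have h3 := hδ' a (by rw [han]; linarith) (by rw [han]; linarith)
  have hzz : ζ * conj ζ = 1 := by
    rw [Complex.mul_conj, Complex.normSq_eq_norm_sq, hζ]; norm_num
  have h4 : ∀ᵐ z ∂(μ.restrict (closedBall ζ h)), ENNReal.ofReal (1 / (4 * h)) ≤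
      ENNReal.ofReal (kr a z) := by
    rw [ae_restrict_iff' measurableSet_closedBall]
    filter_upwards [hμ] with z hz hzb
    apply ENNReal.ofReal_le_ofReal
    have hu0 : 0 < ‖1 - conj a * z‖ := one_sub_pos (by rw [han]; linarith) hz.le
    have hu : ‖1 - conj a * z‖ ≤ 2 * h := by
      have e : ζ * (1 - conj a * z) = (ζ - z) + (h : ℂ) * z := by
        rw [ha, map_mul, Complex.conj_ofReal]
        have : ζ * (1 - ((1 - h : ℝ) : ℂ) * conj ζ * z) =
          ζ - ((1 - h : ℝ) : ℂ) * (ζ * conj ζ) * z := by ring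
        rw [this, hzz]
        push_cast
        ring
      have e2 : ‖1 - conj a * z‖ = ‖ζ * (1 - conj a * z)‖ := by rw [norm_mul, hζ, one_mul]
      rw [e2, e]
      refine (norm_add_le _ _).trans ?_
      have e3 : ‖ζ - z‖ ≤ h := by rw [norm_sub_rev]; exact mem_closedBall_iff_norm.1 hzb
      have e4 : ‖(h : ℂ) * z‖ ≤ h := by
        rw [norm_mul, Complex.norm_real, Real.norm_of_nonneg h0.le]
        nlinarith
      linarith
    rw [kr, han, div_le_div_iff₀ (by positivity) (by positivity)]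
    have hu2 : ‖1 - conj a * z‖ ^ 2 ≤ 4 * h ^ 2 := by nlinarith
    nlinarith
  have h5 : ENNReal.ofReal (1 / (4 * h)) * μ (closedBall ζ h) ≤ ENNReal.ofReal (ε / 4) := by
    calc ENNReal.ofReal (1 / (4 * h)) * μ (closedBall ζ h)
        = ∫⁻ _z in closedBall ζ h, ENNReal.ofReal (1 / (4 * h)) ∂μ := by
          rw [lintegral_const, Measure.restrict_apply_univ]
      _ ≤ ∫⁻ z in closedBall ζ h, ENNReal.ofReal (kr a z) ∂μ := lintegral_mono_ae h4
      _ ≤ ∫⁻ z, ENNReal.ofReal (kr a z) ∂μ := setLIntegral_le_lintegral _ _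
      _ ≤ _ := h3
  calc μ (closedBall ζ h) = ENNReal.ofReal (4 * h) *
        (ENNReal.ofReal (1 / (4 * h)) * μ (closedBall ζ h)) := by
        rw [← mul_assoc, ← ENNReal.ofReal_mul (by positivity)]
        have : 4 * h * (1 / (4 * h)) = 1 := by field_simp
        rw [this, ENNReal.ofReal_one, one_mul]
    _ ≤ ENNReal.ofReal (4 * h) * ENNReal.ofReal (ε / 4) := by gcongr
    _ = ENNReal.ofReal (ε * h) := by
        rw [← ENNReal.ofReal_mul (by positivity)]
        congr 1
        ring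

/-- the layer bound -/
theorem layer {a z ζ : ℂ} {δ₀ : ℝ} (hδ₀ : 0 < δ₀) (ha0 : 0 < ‖a‖) (ha : ‖a‖ < 1)
    (hζ : a = (‖a‖ : ℂ) * ζ) (hζ1 : ‖ζ‖ = 1) (hd : 1 - ‖a‖ < δ₀) (hz : ‖z‖ < 1) :
    ENNReal.ofReal (kr a z) ≤
      (∑' k : ℕ, (if 2 ^ k * (1 - ‖a‖) < δ₀ then
        (closedBall ζ (2 ^ k * (1 - ‖a‖))).indicator
          (fun _ => ENNReal.ofReal (32 / (4 ^ k * (1 - ‖a‖)))) z else 0)) +
      ENNReal.ofReal (32 * (1 - ‖a‖) / δ₀ ^ 2) := by
  set d := 1 - ‖a‖ with hdd
  have hd0 : 0 < d := by linarith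
  have hu0 : 0 < ‖1 - conj a * z‖ := one_sub_pos ha hz.le
  set u := ‖1 - conj a * z‖ with hu
  set ρ := ‖z - ζ‖ with hρ
  have hud : d ≤ u := by
    have h2 := norm_sub_norm_le (1 : ℂ) (conj a * z)
    rw [norm_one, norm_mul, RCLike.norm_conj] at h2
    nlinarith [norm_nonneg z, norm_nonneg a]
  have huρ : ρ ≤ 2 * u := by
    have h1 : ‖z - a‖ ≤ u := dist_le_one_sub ha.le hz.le
    have h2 : ‖a - ζ‖ = d := by
      have : a - ζ = -((d : ℂ) * ζ) := by
        rw [hdd]; push_cast
        nth_rewrite 1 [hζ]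
        ring
      rw [this, norm_neg, norm_mul, hζ1, Complex.norm_real, Real.norm_of_nonneg hd0.le, mul_one]
    have h3 : ρ ≤ ‖z - a‖ + ‖a - ζ‖ := by
      have : z - ζ = (z - a) + (a - ζ) := by ring
      rw [hρ, this]
      exact norm_add_le _ _
    linarith
  have hnum : 1 - ‖a‖ ^ 2 ≤ 2 * d := by nlinarith
  have hkr : kr a z ≤ 2 * d / u ^ 2 := by
    rw [kr]
    gcongr
  by_cases hρ0 : δ₀ / 2 ≤ ρ
  · refine le_trans ?_ le_add_self
    apply ENNReal.ofReal_le_ofReal
    refine hkr.trans ?_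
    rw [div_le_div_iff₀ (by positivity) (by positivity)]
    have : δ₀ ≤ 4 * u := by linarith
    have h2 : δ₀ ^ 2 ≤ 16 * u ^ 2 := by nlinarith
    nlinarith
  · rw [not_le] at hρ0
    refine le_trans ?_ le_self_add
    have hex : ∃ k : ℕ, ρ ≤ 2 ^ k * d := by
      obtain ⟨k, hk⟩ := pow_unbounded_of_one_lt (ρ / d) (one_lt_two)
      refine ⟨k, ?_⟩
      rw [div_lt_iff₀ hd0] at hk
      exact hk.le
    classical
    set k := Nat.find hex with hk
    have hk1 : ρ ≤ 2 ^ k * d := Nat.find_spec hex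
    have hkey : 2 ^ k * d < δ₀ ∧ 2 * d / u ^ 2 ≤ 32 / (4 ^ k * d) := by
      rcases Nat.eq_zero_or_pos k with h0 | h0
      · rw [h0, pow_zero, pow_zero, one_mul]
        refine ⟨hd, ?_⟩
        rw [div_le_div_iff₀ (by positivity) hd0]
        nlinarith
      · have hk2 : ¬ (ρ ≤ 2 ^ (k - 1) * d) := Nat.find_min hex (by omega)
        rw [not_le] at hk2
        have e1 : (2 : ℝ) ^ k = 2 * 2 ^ (k - 1) := by
          rw [← pow_succ']; congr 1; omega
        have e2 : (4 : ℝ) ^ k = (2 ^ k) ^ 2 := by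
          rw [← pow_mul, mul_comm, pow_mul]; norm_num
        refine ⟨by rw [e1]; linarith, ?_⟩
        rw [div_le_div_iff₀ (by positivity) (by positivity), e2]
        have h5 : 2 ^ k * d < 4 * u := by rw [e1]; linarith
        have h6 : (2 ^ k * d) ^ 2 ≤ 16 * u ^ 2 := by
          have h7 : 0 < 2 ^ k * d := by positivity
          nlinarith
        nlinarith
    have h8 := ENNReal.le_tsum (f := fun k : ℕ => (if 2 ^ k * d < δ₀ then
        (closedBall ζ (2 ^ k * d)).indicator
          (fun _ => ENNReal.ofReal (32 / (4 ^ k * d))) z else 0)) k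
    refine le_trans ?_ h8
    rw [if_pos hkey.1, indicator_of_mem (mem_closedBall_iff_norm.2 hk1)]
    exact ENNReal.ofReal_le_ofReal (hkr.trans hkey.2)

theorem kt_of_vc (hu : μ univ ≤ 1) (hμ : ∀ᵐ z ∂μ, ‖z‖ < 1) (hv : VanishingCarleson μ) : KT μ := by
  intro ε hε
  obtain ⟨δ₀, hδ₀, hδ'⟩ := hv (ε / 128) (by positivity)
  refine ⟨min (min δ₀ 1) (ε * δ₀ ^ 2 / 64), lt_min (lt_min hδ₀ one_pos) (by positivity), ?_⟩
  intro a ha1 ha
  have m1 : min (min δ₀ 1) (ε * δ₀ ^ 2 / 64) ≤ δ₀ := (min_le_left _ _).trans (min_le_left _ _)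
  have m2 : min (min δ₀ 1) (ε * δ₀ ^ 2 / 64) ≤ 1 := (min_le_left _ _).trans (min_le_right _ _)
  have m3 : min (min δ₀ 1) (ε * δ₀ ^ 2 / 64) ≤ ε * δ₀ ^ 2 / 64 := min_le_right _ _
  have ha0 : 0 < ‖a‖ := by linarith
  set ζ : ℂ := a / (‖a‖ : ℂ) with hζd
  have hne : (‖a‖ : ℂ) ≠ 0 := by exact_mod_cast ha0.ne'
  have hζ : a = (‖a‖ : ℂ) * ζ := by rw [hζd]; field_simp
  have hζ1 : ‖ζ‖ = 1 := by
    rw [hζd, norm_div, Complex.norm_real, norm_norm, div_self ha0.ne']
  set d := 1 - ‖a‖ with hdd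
  have hd0 : 0 < d := by linarith
  have hd1 : d < δ₀ := by linarith
  calc ∫⁻ z, ENNReal.ofReal (kr a z) ∂μ
      ≤ ∫⁻ z, ((∑' k : ℕ, (if 2 ^ k * d < δ₀ then (closedBall ζ (2 ^ k * d)).indicator
          (fun _ => ENNReal.ofReal (32 / (4 ^ k * d))) z else 0)) +
      ENNReal.ofReal (32 * d / δ₀ ^ 2)) ∂μ := by
        apply lintegral_mono_ae
        filter_upwards [hμ] with z hz
        exact layer hδ₀ ha0 ha hζ hζ1 hd1 hz
    _ = (∑' k : ℕ, ∫⁻ z, (if 2 ^ k * d < δ₀ then (closedBall ζ (2 ^ k * d)).indicator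
          (fun _ => ENNReal.ofReal (32 / (4 ^ k * d))) z else 0) ∂μ) +
        ENNReal.ofReal (32 * d / δ₀ ^ 2) * μ univ := by
        rw [lintegral_add_right _ measurable_const, lintegral_const, lintegral_tsum]
        intro k
        split_ifs
        · exact (measurable_const.indicator measurableSet_closedBall).aemeasurable
        · exact aemeasurable_const
    _ ≤ (∑' k : ℕ, ENNReal.ofReal (ε / 4 * (1 / 2) ^ k)) + ENNReal.ofReal (ε / 2) * 1 := by
        refine add_le_add (ENNReal.tsum_le_tsum fun k => ?_)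
          (mul_le_mul' (ENNReal.ofReal_le_ofReal ?_) hu)
        · by_cases hk : 2 ^ k * d < δ₀
          · simp only [if_pos hk]
            rw [lintegral_indicator measurableSet_closedBall, lintegral_const,
              Measure.restrict_apply_univ]
            have h1 := hδ' ζ hζ1 (2 ^ k * d) (by positivity) hk
            calc ENNReal.ofReal (32 / (4 ^ k * d)) * μ (closedBall ζ (2 ^ k * d))
                ≤ ENNReal.ofReal (32 / (4 ^ k * d)) * ENNReal.ofReal (ε / 128 * (2 ^ k * d)) := by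
                  gcongr
              _ = ENNReal.ofReal (ε / 4 * (1 / 2) ^ k) := by
                  rw [← ENNReal.ofReal_mul (by positivity)]
                  congr 1
                  have e2 : (4 : ℝ) ^ k = (2 ^ k) * 2 ^ k := by
                    rw [← mul_pow]; norm_num
                  rw [e2, one_div, inv_pow]
                  field_simp
                  ring
          · simp only [if_neg hk, lintegral_zero]
            exact bot_le
        · rw [div_le_div_iff₀ (by positivity) two_pos]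
          have h2 : d ≤ ε * δ₀ ^ 2 / 64 := by linarith
          nlinarith
    _ = ENNReal.ofReal ε := by
        rw [← ENNReal.ofReal_tsum_of_nonneg (fun n => by positivity)
          ((summable_geometric_two).mul_left _), tsum_mul_left, tsum_geometric_two, mul_one,
          ← ENNReal.ofReal_add (by positivity) (by positivity)]
        congr 1
        ring

end Pool.Agent.H502U
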