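import Mathlib
import Pool.Agent.H502U.Vc

set_option autoImplicit false

open Complex Metric Set Filter MeasureTheory ContinuousLinearMap
open scoped Real Topology ComplexConjugate NNReal ENNReal

namespace Pool.Agent.H502U

open Pool.Agent.Helper203.Hardy

variable {φ : ℂ → ℂ} {μ : Measure ℂ}

/-- the part of the kernel integral near the circle is uniformly small -/
theorem kt_unif [IsFiniteMeasure μ] (hμ : ∀ᵐ z ∂μ, ‖z‖ < 1) (hk : KT μ) {ε : ℝ} (hε : 0 < ε) :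
    ∃ r : ℝ, 0 ≤ r ∧ r < 1 ∧ ∀ a : ℂ, ‖a‖ < 1 →
      ∫⁻ z in {z : ℂ | r < ‖z‖}, ENNReal.ofReal (kr a z) ∂μ ≤ ENNReal.ofReal ε := by
  obtain ⟨δ, hδ, hδ'⟩ := hk ε hε
  have hms : ∀ n, MeasurableSet {z : ℂ | rad n < ‖z‖} := fun n =>
    measurableSet_lt measurable_const measurable_norm
  have hmono : Monotone rad := by
    intro m n hmn
    unfold rad
    have : (m : ℝ) ≤ n := by exact_mod_cast hmn
    gcongr
  have h1 : Tendsto (μ ∘ fun n => {z : ℂ | rad n < ‖z‖}) atTop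
      (𝓝 (μ (⋂ n, {z : ℂ | rad n < ‖z‖}))) := by
    apply tendsto_measure_iInter_atTop (fun n => (hms n).nullMeasurableSet)
    · intro m n hmn z hz
      exact lt_of_le_of_lt (hmono hmn) hz
    · exact ⟨0, measure_ne_top _ _⟩
  have h2 : μ (⋂ n, {z : ℂ | rad n < ‖z‖}) = 0 := by
    apply measure_mono_null (t := {z : ℂ | ¬ ‖z‖ < 1})
    · intro z hz hz1
      rw [mem_iInter] at hz
      have h4 : ∀ᶠ n in atTop, ‖z‖ < rad n := rad_tendsto.eventually_const_lt hz1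
      obtain ⟨n, hn⟩ := h4.exists
      exact lt_asymm hn (hz n)
    · exact hμ
  rw [h2] at h1
  have h3 : ∀ᶠ n in atTop, μ {z : ℂ | rad n < ‖z‖} < ENNReal.ofReal (ε * δ ^ 2) :=
    h1.eventually_lt_const (by rw [ENNReal.ofReal_pos]; positivity)
  obtain ⟨n, hn⟩ := h3.exists
  refine ⟨rad n, rad_nonneg n, rad_lt n, ?_⟩
  intro a ha
  by_cases hc : 1 - δ < ‖a‖
  · exact (setLIntegral_le_lintegral _ _).trans (hδ' a hc ha)
  · rw [not_lt] at hc
    calc ∫⁻ z in {z : ℂ | rad n < ‖z‖}, ENNReal.ofReal (kr a z) ∂μ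
        ≤ ∫⁻ _z in {z : ℂ | rad n < ‖z‖}, ENNReal.ofReal (1 / δ ^ 2) ∂μ := by
          apply lintegral_mono_ae
          filter_upwards [ae_restrict_of_ae hμ] with z hz
          apply ENNReal.ofReal_le_ofReal
          refine (kr_le ha hz.le).trans ?_
          have : δ ≤ 1 - ‖a‖ := by linarith
          gcongr
      _ = ENNReal.ofReal (1 / δ ^ 2) * μ {z : ℂ | rad n < ‖z‖} := by
          rw [lintegral_const, Measure.restrict_apply_univ]
      _ ≤ ENNReal.ofReal (1 / δ ^ 2) * ENNReal.ofReal (ε * δ ^ 2) := by gcongr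
      _ = ENNReal.ofReal ε := by
          rw [← ENNReal.ofReal_mul (by positivity)]
          congr 1
          field_simp

theorem carl_set [IsFiniteMeasure μ] (hμ : ∀ᵐ z ∂μ, ‖z‖ < 1) {r ε : ℝ}
    (h : ∀ a : ℂ, ‖a‖ < 1 →
      ∫⁻ z in {z : ℂ | r < ‖z‖}, ENNReal.ofReal (kr a z) ∂μ ≤ ENNReal.ofReal ε)
    {f : ℂ → ℂ} (hf : DiffContOnCl ℂ f (ball 0 1)) :
    ∫⁻ z in {z : ℂ | r < ‖z‖}, ENNReal.ofReal ‖f z‖ ^ 2 ∂μ ≤
      32 * ENNReal.ofReal ε * ∫⁻ θ, ENNReal.ofReal ‖f (circleMap 0 1 θ)‖ ^ 2 ∂mT :=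
  carleson (ν := μ.restrict {z : ℂ | r < ‖z‖}) (ψ := id) measurable_id (ae_restrict_of_ae hμ) h hf

/-- the inner part of the form is uniformly small -/
theorem qi_unif (hφ : DifferentiableOn ℂ φ (ball 0 1))
    (hm : MapsTo φ (ball (0 : ℂ) 1) (ball 0 1)) (hk : KT (pull φ)) {ε : ℝ} (hε : 0 < ε) :
    ∃ N : ℕ, ∀ n ≥ N, ∀ f : H2, (Summable fun n => ‖f n‖) → qi φ f n ≤ ε * ‖f‖ ^ 2 := by
  obtain ⟨r, hr0, hr1, hr⟩ := kt_unif (pull_ae φ) hk (show 0 < ε / 64 by positivity)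
  have h1 : Tendsto (fun n : ℕ => r ^ (2 * n) * ((1 - r)⁻¹) ^ 2) atTop (𝓝 (0 * ((1 - r)⁻¹) ^ 2)) := by
    apply Tendsto.mul_const
    have h3 := (tendsto_pow_atTop_nhds_zero_of_lt_one hr0 hr1).comp
      (tendsto_id.nsmul_atTop two_pos)
    refine h3.congr fun n => ?_
    simp
  rw [zero_mul] at h1
  obtain ⟨N, hN⟩ := eventually_atTop.1 (h1.eventually_le_const (show (0 : ℝ) < ε / 2 by positivity))
  refine ⟨N, fun n hn f hs => ?_⟩
  have hb := hN n hn
  have hms : MeasurableSet {z : ℂ | r < ‖z‖} := measurableSet_lt measurable_const measurable_norm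
  have e1 := qi_pull hφ hm f hs n
  rw [← lintegral_add_compl _ hms] at e1
  have i1 : ∫⁻ z in {z : ℂ | r < ‖z‖}, ENNReal.ofReal (‖z‖ ^ (2 * n) * ‖evm f z‖ ^ 2) ∂(pull φ) ≤
      ENNReal.ofReal (ε / 2 * ‖f‖ ^ 2) := by
    calc _ ≤ ∫⁻ z in {z : ℂ | r < ‖z‖}, ENNReal.ofReal ‖ev f z‖ ^ 2 ∂(pull φ) := by
          apply lintegral_mono_ae
          filter_upwards [ae_restrict_of_ae (pull_ae φ)] with z hz
          rw [← ENNReal.ofReal_pow (norm_nonneg _), evm_eq f hz.le]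
          apply ENNReal.ofReal_le_ofReal
          exact mul_le_of_le_one_left (by positivity) (pow_le_one₀ (norm_nonneg _) hz.le)
      _ ≤ 32 * ENNReal.ofReal (ε / 64) * ∫⁻ θ, ENNReal.ofReal ‖ev f (circleMap 0 1 θ)‖ ^ 2 ∂mT :=
          carl_set (pull_ae φ) hr (evW_diff f hs)
      _ = ENNReal.ofReal (ε / 2 * ‖f‖ ^ 2) := by
          rw [evW_parseval f hs]
          have : (32 : ℝ≥0∞) = ENNReal.ofReal 32 := by simp
          rw [this, ← ENNReal.ofReal_mul (by norm_num), ← ENNReal.ofReal_mul (by positivity)]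
          congr 1
          ring
  have i2 : ∫⁻ z in {z : ℂ | r < ‖z‖}ᶜ, ENNReal.ofReal (‖z‖ ^ (2 * n) * ‖evm f z‖ ^ 2) ∂(pull φ) ≤
      ENNReal.ofReal (ε / 2 * ‖f‖ ^ 2) := by
    calc _ ≤ ∫⁻ _z in {z : ℂ | r < ‖z‖}ᶜ, ENNReal.ofReal (ε / 2 * ‖f‖ ^ 2) ∂(pull φ) := by
          apply lintegral_mono_ae
          filter_upwards [ae_restrict_mem hms.compl] with z hz
          have hz' : ‖z‖ ≤ r := not_lt.1 hz
          rw [evm_eq f (hz'.trans hr1.le)]
          apply ENNReal.ofReal_le_ofReal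
          have h5 := ev_norm_le f hz' hr1
          calc ‖z‖ ^ (2 * n) * ‖ev f z‖ ^ 2 ≤ r ^ (2 * n) * (‖f‖ * (1 - r)⁻¹) ^ 2 := by gcongr
            _ = (r ^ (2 * n) * ((1 - r)⁻¹) ^ 2) * ‖f‖ ^ 2 := by ring
            _ ≤ ε / 2 * ‖f‖ ^ 2 := by gcongr
      _ = ENNReal.ofReal (ε / 2 * ‖f‖ ^ 2) * (pull φ) {z : ℂ | r < ‖z‖}ᶜ := by
          rw [lintegral_const, Measure.restrict_apply_univ]
      _ ≤ ENNReal.ofReal (ε / 2 * ‖f‖ ^ 2) * 1 := by
          gcongr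
          exact (measure_mono (subset_univ _)).trans (pull_univ_le hφ hm)
      _ = _ := mul_one _
  have h6 : ENNReal.ofReal (qi φ f n) ≤ ENNReal.ofReal (ε * ‖f‖ ^ 2) := by
    rw [e1]
    refine (add_le_add i1 i2).trans (le_of_eq ?_)
    rw [← ENNReal.ofReal_add (by positivity) (by positivity)]
    congr 1
    ring
  exact (ENNReal.ofReal_le_ofReal_iff (by positivity)).1 h6

/-- the kernel test implies UAT -/
theorem lim_of_kt (hφ : DifferentiableOn ℂ φ (ball 0 1))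
    (hm : MapsTo φ (ball (0 : ℂ) 1) (ball 0 1)) {C : H2 →L[ℂ] H2}
    (hC : ∀ f : H2, ∀ z ∈ ball (0 : ℂ) 1, ev (C f) z = ev f (φ z)) (hk : KT (pull φ)) :
    ∃ L, Tendsto (fun n => compress (adjoint C ∘L C) n) atTop (𝓝 L) := by
  apply cauchySeq_tendsto_of_complete
  rw [Metric.cauchySeq_iff]
  intro ε hε
  obtain ⟨N, hN⟩ := qi_unif hφ hm hk (show 0 < ε / 4 by positivity)
  refine ⟨N, fun m hmN n hn => ?_⟩
  rw [dist_eq_norm]
  have h1 : ‖compress (adjoint C ∘L C) m - compress (adjoint C ∘L C) n‖ ≤ 2 * (ε / 4) := by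
    apply norm_le_of_form (by positivity)
    apply wiener_ind
    · apply isClosed_le
      · apply Continuous.norm
        exact (ContinuousLinearMap.continuous _).inner continuous_id
      · fun_prop
    · intro f hs
      rw [_root_.sub_apply, inner_sub_left, form_eq hφ hm hC f hs m,
        form_eq hφ hm hC f hs n, ← Complex.ofReal_sub, Complex.norm_real, Real.norm_eq_abs]
      have a1 := hN m hmN f hs
      have a2 := hN n hn f hs
      have b1 := qi_nonneg (φ := φ) f m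
      have b2 := qi_nonneg (φ := φ) f n
      rw [abs_le]
      constructor <;> linarith
  linarith

end Pool.Agent.H502U
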