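import Mathlib
import Pool.Agent.H502U.Suf

set_option autoImplicit false

open Complex Metric Set Filter MeasureTheory ContinuousLinearMap
open scoped Real Topology ComplexConjugate NNReal ENNReal

namespace Pool.Agent.H502U

open Pool.Agent.Helper203.Hardy

variable {φ : ℂ → ℂ}

theorem aem {g : ℂ → ℂ} (hg : ContinuousOn g (ball 0 1)) : AEMeasurable g (pull φ) := by
  unfold pull
  exact hg.aemeasurable measurableSet_ball

theorem aem2 {g : ℂ → ℂ} (hg : ContinuousOn g (ball 0 1)) :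
    AEMeasurable (fun z => ENNReal.ofReal (‖g z‖ ^ 2)) (pull φ) :=
  ENNReal.measurable_ofReal.comp_aemeasurable ((aem hg).norm.pow_const 2)

theorem lint_pull' (hφ : DifferentiableOn ℂ φ (ball 0 1))
    (hm : MapsTo φ (ball (0 : ℂ) 1) (ball 0 1)) {g : ℂ → ℂ} (hg : ContinuousOn g (ball 0 1)) :
    ∫⁻ z, ENNReal.ofReal (‖g z‖ ^ 2) ∂(pull φ) =
      ∫⁻ θ, (if ‖bv φ θ‖ < 1 then ENNReal.ofReal (‖g (bv φ θ)‖ ^ 2) else 0) ∂mT := by
  classical
  have h1 : Measurable ((ball (0 : ℂ) 1).indicator g) := by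
    have := ContinuousOn.measurable_piecewise (f := g) (g := fun _ => (0 : ℂ)) hg continuousOn_const
      isOpen_ball.measurableSet
    have e : (ball (0 : ℂ) 1).piecewise g (fun _ => (0 : ℂ)) = (ball (0 : ℂ) 1).indicator g :=
      Set.piecewise_eq_indicator
    rwa [e] at this
  have hG : Measurable fun z => ENNReal.ofReal (‖(ball (0 : ℂ) 1).indicator g z‖ ^ 2) := by
    fun_prop
  have h2 := lint_pull hG hφ hm
  have h3 : ∫⁻ z, ENNReal.ofReal (‖g z‖ ^ 2) ∂(pull φ) =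
      ∫⁻ z, ENNReal.ofReal (‖(ball (0 : ℂ) 1).indicator g z‖ ^ 2) ∂(pull φ) := by
    apply lintegral_congr_ae
    filter_upwards [pull_ae φ] with z hz
    rw [indicator_of_mem (mem_ball_zero_iff.2 hz)]
  rw [h3, h2]
  apply lintegral_congr
  intro θ
  split_ifs with h
  · rw [indicator_of_mem (mem_ball_zero_iff.2 h)]
  · rfl

/-- Carleson embedding for all of `H²` near the circle -/
theorem carl_all {r ε : ℝ}
    (h : ∀ a : ℂ, ‖a‖ < 1 →
      ∫⁻ z in {z : ℂ | r < ‖z‖}, ENNReal.ofReal (kr a z) ∂(pull φ) ≤ ENNReal.ofReal ε)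
    (f : H2) :
    ∫⁻ z in {z : ℂ | r < ‖z‖}, ENNReal.ofReal (‖ev f z‖ ^ 2) ∂(pull φ) ≤
      32 * ENNReal.ofReal ε * ENNReal.ofReal (‖f‖ ^ 2) := by
  set G : ℕ → ℂ → ℝ≥0∞ := fun n z => ENNReal.ofReal (‖ev f ((rad n : ℂ) * z)‖ ^ 2) with hG
  have hd : ∀ n, DiffContOnCl ℂ (fun z => ev f ((rad n : ℂ) * z)) (ball 0 1) := fun n =>
    dil_diff f (rad_nonneg n) (rad_lt n)
  have h1 : ∀ n, ∫⁻ z in {z : ℂ | r < ‖z‖}, G n z ∂(pull φ) ≤
      32 * ENNReal.ofReal ε * ENNReal.ofReal (‖f‖ ^ 2) := by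
    intro n
    have h2 := carl_set (pull_ae φ) h (hd n)
    calc ∫⁻ z in {z : ℂ | r < ‖z‖}, G n z ∂(pull φ)
        = ∫⁻ z in {z : ℂ | r < ‖z‖}, ENNReal.ofReal ‖ev f ((rad n : ℂ) * z)‖ ^ 2 ∂(pull φ) := by
          apply lintegral_congr
          intro z
          rw [hG]
          dsimp only
          rw [ENNReal.ofReal_pow (norm_nonneg _)]
      _ ≤ _ := h2
      _ ≤ _ := by
          gcongr
          have e : ∀ θ : ℝ, (rad n : ℂ) * circleMap 0 1 θ = circleMap 0 (rad n) θ := by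
            intro θ
            simp [circleMap]
          have hc : Continuous fun θ : ℝ => ‖ev f (circleMap 0 (rad n) θ)‖ ^ 2 := by
            apply Continuous.pow
            apply Continuous.norm
            apply (ev_diff f).continuousOn.comp_continuous (continuous_circleMap 0 _)
            intro θ
            exact circle_mem n θ
          calc ∫⁻ θ, ENNReal.ofReal ‖ev f ((rad n : ℂ) * circleMap 0 1 θ)‖ ^ 2 ∂mT
              = ∫⁻ θ, ENNReal.ofReal (‖ev f (circleMap 0 (rad n) θ)‖ ^ 2) ∂mT := by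
                apply lintegral_congr
                intro θ
                rw [e, ENNReal.ofReal_pow (norm_nonneg _)]
            _ = ENNReal.ofReal (∫ θ, ‖ev f (circleMap 0 (rad n) θ)‖ ^ 2 ∂mT) :=
                lint_eq hc (fun θ => by positivity)
            _ ≤ _ := ENNReal.ofReal_le_ofReal (ev_circle_le f (rad_nonneg n) (rad_lt n))
  have h3 : ∀ᵐ z ∂((pull φ).restrict {z : ℂ | r < ‖z‖}),
      ENNReal.ofReal (‖ev f z‖ ^ 2) = liminf (fun n => G n z) atTop := by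
    filter_upwards [ae_restrict_of_ae (pull_ae φ)] with z hz
    symm
    apply Tendsto.liminf_eq
    apply (ENNReal.continuous_ofReal.tendsto _).comp
    apply Tendsto.pow
    apply Tendsto.norm
    have h4 : Tendsto (fun n => (rad n : ℂ) * z) atTop (𝓝 z) := by
      have h5 : Tendsto (fun n => (rad n : ℂ)) atTop (𝓝 1) := by
        have := (Complex.continuous_ofReal.tendsto (1 : ℝ)).comp rad_tendsto
        rw [Complex.ofReal_one] at this
        exact this
      have h6 := h5.mul_const z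
      rwa [one_mul] at h6
    have hcz : ContinuousAt (ev f) z :=
      (ev_diff f).continuousOn.continuousAt (isOpen_ball.mem_nhds (mem_ball_zero_iff.2 hz))
    exact hcz.tendsto.comp h4
  rw [lintegral_congr_ae h3]
  refine (lintegral_liminf_le' ?_).trans ?_
  · intro n
    have := aem2 (φ := φ) (hd n).1.continuousOn
    exact this.restrict
  · exact liminf_le_of_frequently_le' (Eventually.of_forall h1).frequently

theorem cpt_of_kt (hk : KT (pull φ)) (F : ℕ → H2) {M : ℝ} (hM : ∀ n, ‖F n‖ ≤ M)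
    (h0 : ∀ z ∈ ball (0 : ℂ) 1, Tendsto (fun n => ev (F n) z) atTop (𝓝 0)) :
    Tendsto (fun n => ∫⁻ z, ENNReal.ofReal (‖ev (F n) z‖ ^ 2) ∂(pull φ)) atTop (𝓝 0) := by
  have hM0 : 0 ≤ M := (norm_nonneg _).trans (hM 0)
  rw [ENNReal.tendsto_nhds_zero]
  intro ε hε
  obtain ⟨e, he0, heε⟩ : ∃ e : ℝ, 0 < e ∧ ENNReal.ofReal e ≤ ε := by
    by_cases ht : ε = ⊤
    · exact ⟨1, one_pos, by rw [ht]; exact le_top⟩
    · exact ⟨ε.toReal, ENNReal.toReal_pos hε.ne' ht, ENNReal.ofReal_toReal_le⟩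
  obtain ⟨r, hr0, hr1, hr⟩ := kt_unif (pull_ae φ) hk (show 0 < e / (64 * (M ^ 2 + 1)) by positivity)
  have hms : MeasurableSet {z : ℂ | r < ‖z‖} := measurableSet_lt measurable_const measurable_norm
  have h1 : Tendsto (fun n => ∫⁻ z in {z : ℂ | r < ‖z‖}ᶜ, ENNReal.ofReal (‖ev (F n) z‖ ^ 2)
      ∂(pull φ)) atTop (𝓝 (∫⁻ _z in {z : ℂ | r < ‖z‖}ᶜ, (0 : ℝ≥0∞) ∂(pull φ))) := by
    apply tendsto_lintegral_of_dominated_convergence' (fun _ => ENNReal.ofReal ((M * (1 - r)⁻¹) ^ 2))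
    · intro n
      exact (aem2 (ev_diff (F n)).continuousOn).restrict
    · intro n
      filter_upwards [ae_restrict_mem hms.compl] with z hz
      have hz' : ‖z‖ ≤ r := not_lt.1 hz
      apply ENNReal.ofReal_le_ofReal
      have h5 := ev_norm_le (F n) hz' hr1
      have h6 : 0 ≤ (1 - r)⁻¹ := inv_nonneg.2 (by linarith)
      have h7 : ‖F n‖ * (1 - r)⁻¹ ≤ M * (1 - r)⁻¹ := by
        gcongr
        exact hM n
      exact pow_le_pow_left₀ (norm_nonneg _) (h5.trans h7) 2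
    · rw [lintegral_const]
      exact ENNReal.mul_ne_top ENNReal.ofReal_ne_top (measure_ne_top _ _)
    · filter_upwards [ae_restrict_of_ae (pull_ae φ)] with z hz
      have h2 := (h0 z (mem_ball_zero_iff.2 hz)).norm.pow 2
      have h3 := (ENNReal.continuous_ofReal.tendsto _).comp h2
      have e : ENNReal.ofReal (‖(0 : ℂ)‖ ^ 2) = 0 := by simp
      rw [e] at h3
      exact h3
  rw [lintegral_zero] at h1
  have h2 : ∀ᶠ n in atTop, ∫⁻ z in {z : ℂ | r < ‖z‖}ᶜ, ENNReal.ofReal (‖ev (F n) z‖ ^ 2)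
      ∂(pull φ) ≤ ENNReal.ofReal (e / 2) :=
    (h1.eventually_lt_const (by rw [ENNReal.ofReal_pos]; positivity)).mono fun n hn => hn.le
  filter_upwards [h2] with n hn
  rw [← lintegral_add_compl _ hms]
  refine le_trans (add_le_add ?_ hn) (?_ : ENNReal.ofReal (e / 2) + ENNReal.ofReal (e / 2) ≤ ε)
  · refine (carl_all hr (F n)).trans ?_
    have : (32 : ℝ≥0∞) = ENNReal.ofReal 32 := by simp
    rw [this, ← ENNReal.ofReal_mul (by norm_num), ← ENNReal.ofReal_mul (by positivity)]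
    apply ENNReal.ofReal_le_ofReal
    have h3 : ‖F n‖ ^ 2 ≤ M ^ 2 + 1 := by
      have := hM n
      nlinarith [norm_nonneg (F n)]
    calc 32 * (e / (64 * (M ^ 2 + 1))) * ‖F n‖ ^ 2
        ≤ 32 * (e / (64 * (M ^ 2 + 1))) * (M ^ 2 + 1) := by gcongr
      _ = e / 2 := by field_simp; norm_num
  · rw [← ENNReal.ofReal_add (by positivity) (by positivity)]
    have : e / 2 + e / 2 = e := by ring
    rwa [this]

theorem kt_of_cpt
    (h : ∀ F : ℕ → H2, (∃ M : ℝ, ∀ n, ‖F n‖ ≤ M) →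
      (∀ z ∈ ball (0 : ℂ) 1, Tendsto (fun n => ev (F n) z) atTop (𝓝 0)) →
      Tendsto (fun n => ∫⁻ z, ENNReal.ofReal (‖ev (F n) z‖ ^ 2) ∂(pull φ)) atTop (𝓝 0)) :
    KT (pull φ) := by
  by_contra hk
  unfold KT at hk
  push Not at hk
  obtain ⟨ε, hε, hk⟩ := hk
  choose a ha1 ha ha3 using fun n : ℕ => hk (1 / ((n : ℝ) + 1)) (by positivity)
  have hs0 : ∀ n, 0 < 1 - ‖a n‖ ^ 2 := fun n => by nlinarith [norm_nonneg (a n), ha n]
  set F : ℕ → H2 := fun n => ((√(1 - ‖a n‖ ^ 2) : ℝ) : ℂ) • ker (ha n) with hF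
  have hFn : ∀ n, ‖F n‖ ≤ 1 := by
    intro n
    have h1 : ‖F n‖ ^ 2 = 1 := by
      rw [hF]
      dsimp only
      rw [norm_smul, mul_pow, ker_norm, Complex.norm_real, Real.norm_of_nonneg (Real.sqrt_nonneg _),
        Real.sq_sqrt (hs0 n).le]
      have := (hs0 n).ne'
      field_simp
    nlinarith [norm_nonneg (F n)]
  have hFe : ∀ n, ∀ z : ℂ, ‖z‖ < 1 → ‖ev (F n) z‖ ^ 2 = kr (a n) z := by
    intro n z hz
    rw [hF]
    dsimp only
    rw [ev_smul, norm_mul, mul_pow, Complex.norm_real, Real.norm_of_nonneg (Real.sqrt_nonneg _),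
        Real.sq_sqrt (hs0 n).le, ker_ev_sq (ha n) hz.le]
  have hat : Tendsto (fun n => 1 - ‖a n‖ ^ 2) atTop (𝓝 0) := by
    have h1 : Tendsto (fun n : ℕ => 2 * (1 / ((n : ℝ) + 1))) atTop (𝓝 (2 * 0)) :=
      tendsto_one_div_add_atTop_nhds_zero_nat.const_mul 2
    rw [mul_zero] at h1
    apply squeeze_zero (fun n => (hs0 n).le) _ h1
    intro n
    have h2 := ha1 n
    have h3 := ha n
    nlinarith [norm_nonneg (a n)]
  have h1 := h F ⟨1, hFn⟩ (by
    intro z hz
    rw [mem_ball_zero_iff] at hz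
    rw [tendsto_zero_iff_norm_tendsto_zero]
    have h2 : Tendsto (fun n => ‖ev (F n) z‖ ^ 2) atTop (𝓝 0) := by
      have h3 : Tendsto (fun n => (1 - ‖a n‖ ^ 2) * (1 / (1 - ‖z‖) ^ 2)) atTop
          (𝓝 (0 * (1 / (1 - ‖z‖) ^ 2))) := hat.mul_const _
      rw [zero_mul] at h3
      apply squeeze_zero (fun n => by positivity) _ h3
      intro n
      rw [hFe n z hz, kr, mul_one_div]
      have hu : 1 - ‖z‖ ≤ ‖1 - conj (a n) * z‖ := by
        have h2 := norm_sub_norm_le (1 : ℂ) (conj (a n) * z)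
        rw [norm_one, norm_mul, RCLike.norm_conj] at h2
        nlinarith [norm_nonneg z, norm_nonneg (a n), ha n]
      have hz1 : 0 < 1 - ‖z‖ := by linarith
      have := (hs0 n).le
      gcongr
    have h4 := h2.sqrt
    rw [Real.sqrt_zero] at h4
    refine h4.congr fun n => ?_
    exact Real.sqrt_sq (norm_nonneg _))
  have h2 : ∀ᶠ n in atTop, ∫⁻ z, ENNReal.ofReal (‖ev (F n) z‖ ^ 2) ∂(pull φ) <
      ENNReal.ofReal ε := h1.eventually_lt_const (by rw [ENNReal.ofReal_pos]; exact hε)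
  obtain ⟨n, hn⟩ := h2.exists
  have h3 := ha3 n
  have h4 : ∫⁻ z, ENNReal.ofReal (‖ev (F n) z‖ ^ 2) ∂(pull φ) =
      ∫⁻ z, ENNReal.ofReal (kr (a n) z) ∂(pull φ) := by
    apply lintegral_congr_ae
    filter_upwards [pull_ae φ] with z hz
    rw [hFe n z hz]
  rw [h4] at hn
  exact lt_asymm hn h3

end Pool.Agent.H502U
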